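import Pool.Agent.W203.SP.Stm

/-!
# The tail estimate
-/

set_option autoImplicit false

namespace Pool.Agent.W589.SP

open MeasureTheory Set Complex
open scoped ENNReal NNReal FourierTransform RealInnerProductSpace ContDiff
open Pool.Agent.H153R4 (E BS ch ST cube kk dd)
open Pool.Agent.W203.SP

theorem cs_set {X : Type*} [MeasurableSpace X] (μ : Measure X) (h : X → ℝ≥0∞)
    (hh : Measurable h) : (∫⁻ x, h x ∂μ) ^ 2 ≤ (∫⁻ x, h x ^ 2 ∂μ) * μ univ := by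
  have h1 := ENNReal.lintegral_mul_le_Lp_mul_Lq μ Real.HolderConjugate.two_two hh.aemeasurable
    (aemeasurable_const (b := (1 : ℝ≥0∞)))
  simp only [Pi.mul_apply, mul_one, ENNReal.one_rpow, lintegral_const, one_mul] at h1
  have h2 : (∫⁻ x, h x ∂μ) ^ 2 ≤
      ((∫⁻ x, h x ^ (2 : ℝ) ∂μ) ^ (1 / 2 : ℝ) * μ univ ^ (1 / 2 : ℝ)) ^ 2 := by
    gcongr
  refine h2.trans (le_of_eq ?_)
  rw [mul_pow]
  congr 1
  · rw [← ENNReal.rpow_natCast, ← ENNReal.rpow_mul]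
    norm_num
  · rw [← ENNReal.rpow_natCast, ← ENNReal.rpow_mul]
    norm_num

theorem enorm_fourier_le {k : ℕ} (g : E k → ℂ) (x : E k) : ‖𝓕 g x‖ₑ ≤ ∫⁻ z, ‖g z‖ₑ := by
  rw [Real.fourier_eq]
  refine (enorm_integral_le_lintegral_enorm _).trans (le_of_eq ?_)
  refine lintegral_congr fun z => ?_
  rw [Circle.smul_def, smul_eq_mul, enorm_mul]
  have : ‖((Real.fourierChar (-⟪z, x⟫) : Circle) : ℂ)‖ₑ = 1 := by
    rw [← ofReal_norm, Circle.norm_coe]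
    simp
  rw [this, one_mul]

theorem t_TAIL : S_TAIL := by
  intro k
  have hV : volume (cube k) < ⊤ := Pool.Agent.H153R4.cube_vol k
  refine ⟨volume (cube k) ^ 2, ENNReal.pow_lt_top hV, fun M δ f ρ hf hδ hρ hρd => ?_⟩
  set g : E k → ℂ := fun z => ρ z * f z with hg
  have hgBS : BS (δ * M) g := by
    refine ⟨hρ.mul hf.meas, fun z => ?_, fun z hz => ?_⟩
    · rw [hg]
      simp only [norm_mul]
      exact mul_le_mul (hρd z) (hf.bd z) (norm_nonneg _) hδ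
    · rw [hg]
      simp only [hf.supp z hz, mul_zero]
  have hplan : ∫⁻ x, ‖𝓕 g x‖ₑ ^ 2 = ∫⁻ z, ‖g z‖ₑ ^ 2 :=
    Pool.Agent.H153R4.plancherel g hgBS.int (hgBS.memLp 2)
  have hcm := Pool.Agent.H153R4.cube_meas k
  -- localisation to the cube
  have hloc : ∀ j : ℕ, j ≠ 0 → ∫⁻ z, ‖g z‖ₑ ^ j = ∫⁻ z in cube k, ‖g z‖ₑ ^ j := by
    intro j hj
    rw [← lintegral_indicator hcm]
    refine lintegral_congr fun z => ?_
    by_cases hz : z ∈ cube k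
    · rw [indicator_of_mem hz]
    · rw [indicator_of_notMem hz, hgBS.supp z hz, enorm_zero, zero_pow hj]
  have hme : Measurable fun z => ‖g z‖ₑ := hgBS.meas.enorm
  have c1 : (∫⁻ z, ‖g z‖ₑ) ^ 2 ≤ (∫⁻ z, ‖g z‖ₑ ^ 2) * volume (cube k) := by
    have h1 := cs_set (volume.restrict (cube k)) (fun z => ‖g z‖ₑ) hme
    rw [Measure.restrict_apply_univ, ← hloc 2 (by norm_num)] at h1
    have h2 := hloc 1 (by norm_num)
    simp only [pow_one] at h2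
    rw [h2]
    exact h1
  have c2 : (∫⁻ z, ‖g z‖ₑ ^ 2) ^ 2 ≤ (∫⁻ z, ‖g z‖ₑ ^ 4) * volume (cube k) := by
    have h1 := cs_set (volume.restrict (cube k)) (fun z => ‖g z‖ₑ ^ 2) (hme.pow_const 2)
    rw [Measure.restrict_apply_univ, ← hloc 2 (by norm_num)] at h1
    have h2 : ∫⁻ z in cube k, (‖g z‖ₑ ^ 2) ^ 2 = ∫⁻ z, ‖g z‖ₑ ^ 4 := by
      rw [hloc 4 (by norm_num)]
      refine lintegral_congr fun z => ?_
      rw [← pow_mul]
    rw [h2] at h1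
    exact h1
  have c3 : ∫⁻ z, ‖g z‖ₑ ^ 4 ≤ ENNReal.ofReal (δ ^ 4) * ∫⁻ z, ‖f z‖ₑ ^ 4 := by
    rw [← lintegral_const_mul _ (hf.meas.enorm.pow_const 4)]
    refine lintegral_mono fun z => ?_
    rw [hg]
    simp only [enorm_mul, mul_pow]
    gcongr
    rw [ENNReal.ofReal_pow hδ]
    gcongr
    rw [← ofReal_norm]
    exact ENNReal.ofReal_le_ofReal (hρd z)
  calc ∫⁻ x, ‖𝓕 g x‖ₑ ^ 4 ≤ ∫⁻ x, (∫⁻ z, ‖g z‖ₑ) ^ 2 * ‖𝓕 g x‖ₑ ^ 2 := by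
        refine lintegral_mono fun x => ?_
        have h1 : ‖𝓕 g x‖ₑ ^ 4 = ‖𝓕 g x‖ₑ ^ 2 * ‖𝓕 g x‖ₑ ^ 2 := by rw [← pow_add]
        rw [h1]
        gcongr
        exact enorm_fourier_le g x
    _ = (∫⁻ z, ‖g z‖ₑ) ^ 2 * ∫⁻ z, ‖g z‖ₑ ^ 2 := by
        rw [lintegral_const_mul', hplan]
        exact ENNReal.pow_ne_top hgBS.int.2.ne
    _ ≤ ((∫⁻ z, ‖g z‖ₑ ^ 2) * volume (cube k)) * ∫⁻ z, ‖g z‖ₑ ^ 2 := by gcongr
    _ = volume (cube k) * (∫⁻ z, ‖g z‖ₑ ^ 2) ^ 2 := by ring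
    _ ≤ volume (cube k) * ((∫⁻ z, ‖g z‖ₑ ^ 4) * volume (cube k)) := by gcongr
    _ ≤ volume (cube k) * ((ENNReal.ofReal (δ ^ 4) * ∫⁻ z, ‖f z‖ₑ ^ 4) * volume (cube k)) := by
        gcongr
    _ = volume (cube k) ^ 2 * ENNReal.ofReal (δ ^ 4) * ∫⁻ z, ‖f z‖ₑ ^ 4 := by ring

end Pool.Agent.W589.SP
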